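import Pool.Agent.R972.OP.Stm3

/-!
# Volumes near facets (project OP2): `S_GAP1` and `S_GAP2`
-/

set_option autoImplicit false

namespace Pool.Agent.R860.OP

open MeasureTheory Set Filter Topology
open scoped ENNReal
open Pool.Agent.R972.OP

lemma sec {m : ℕ} (i : Fin (m + 1)) (S : Set (Fin (m + 1) → ℝ)) (T : Set (Fin m → ℝ))
    (hT : MeasurableSet T) (g : (Fin m → ℝ) → ℝ) (hg : Measurable g) (d : ℝ)
    (h : ∀ x ∈ S, (fun j => x (i.succAbove j)) ∈ T ∧ g (fun j => x (i.succAbove j)) ≤ x i ∧
      x i ≤ g (fun j => x (i.succAbove j)) + d) :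
    volume S ≤ ENNReal.ofReal d * volume T := by
  set P : Set (ℝ × (Fin m → ℝ)) := {p | p.2 ∈ T ∧ g p.2 ≤ p.1 ∧ p.1 ≤ g p.2 + d} with hP
  have hPm : MeasurableSet P := by
    apply MeasurableSet.inter (measurable_snd hT)
    apply MeasurableSet.inter
    · exact measurableSet_le (hg.comp measurable_snd) measurable_fst
    · exact measurableSet_le measurable_fst ((hg.comp measurable_snd).add_const d)
  have hmp := volume_preserving_piFinSuccAbove (fun _ : Fin (m + 1) => ℝ) i
  have h1 : S ⊆ (MeasurableEquiv.piFinSuccAbove (fun _ => ℝ) i) ⁻¹' P := by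
    intro x hx
    exact h x hx
  calc volume S ≤ volume ((MeasurableEquiv.piFinSuccAbove (fun _ => ℝ) i) ⁻¹' P) :=
        measure_mono h1
    _ = volume P := hmp.measure_preimage hPm.nullMeasurableSet
    _ = ∫⁻ y, volume ((fun a => (a, y)) ⁻¹' P) := by
        rw [Measure.volume_eq_prod, Measure.prod_apply_symm hPm]
    _ ≤ ∫⁻ y, T.indicator (fun _ => ENNReal.ofReal d) y := by
        apply lintegral_mono
        intro y
        by_cases hy : y ∈ T
        · rw [indicator_of_mem hy]
          have : (fun a => (a, y)) ⁻¹' P ⊆ Icc (g y) (g y + d) := fun a ha => ha.2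
          refine (measure_mono this).trans ?_
          rw [Real.volume_Icc]
          simp
        · have : (fun a => (a, y)) ⁻¹' P = ∅ := by
            ext a
            simp [hP, hy]
          simp only [this]
          simp
    _ = ENNReal.ofReal d * volume T := by
        rw [lintegral_indicator_const hT]

lemma null_eq : ∀ (m : ℕ) (a b : Fin m), a ≠ b → volume {x : Fin m → ℝ | x a = x b} = 0 := by
  intro m a b hab
  cases m with
  | zero => exact a.elim0
  | succ m =>
    obtain ⟨c, hc⟩ := Fin.exists_succAbove_eq (x := b) (y := a) (fun h => hab h.symm)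
    have h := sec a {x : Fin (m + 1) → ℝ | x a = x b} univ MeasurableSet.univ (fun y => y c)
      (measurable_pi_apply c) 0 (by
        intro x hx
        refine ⟨mem_univ _, ?_, ?_⟩
        · simp only [hc]
          exact le_of_eq hx.symm
        · simp only [hc, add_zero]
          exact le_of_eq hx)
    simpa using h

/-- strict version of the simplex -/
def Sm {m : ℕ} (t : Equiv.Perm (Fin m)) : Set (Fin m → ℝ) :=
  {x | (∀ i, 0 ≤ x i ∧ x i ≤ 1) ∧ StrictMono fun i => x (t i)}

lemma measurable_cube (m : ℕ) : MeasurableSet {x : Fin m → ℝ | ∀ i, 0 ≤ x i ∧ x i ≤ 1} := by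
  have : {x : Fin m → ℝ | ∀ i, 0 ≤ x i ∧ x i ≤ 1} = ⋂ i, {x | 0 ≤ x i ∧ x i ≤ 1} := by
    ext x; simp
  rw [this]
  apply MeasurableSet.iInter
  intro i
  apply MeasurableSet.inter
  · exact measurableSet_le measurable_const (measurable_pi_apply i)
  · exact measurableSet_le (measurable_pi_apply i) measurable_const

lemma volume_cube (m : ℕ) : volume {x : Fin m → ℝ | ∀ i, 0 ≤ x i ∧ x i ≤ 1} = 1 := by
  have : {x : Fin m → ℝ | ∀ i, 0 ≤ x i ∧ x i ≤ 1} = Icc (fun _ => (0:ℝ)) (fun _ => 1) := by
    ext x
    simp only [mem_setOf_eq, mem_Icc, Pi.le_def]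
    exact ⟨fun h => ⟨fun i => (h i).1, fun i => (h i).2⟩, fun h i => ⟨h.1 i, h.2 i⟩⟩
  rw [this, Real.volume_Icc_pi]
  simp

lemma measurable_Sm {m : ℕ} (t : Equiv.Perm (Fin m)) : MeasurableSet (Sm t) := by
  apply MeasurableSet.inter (measurable_cube m)
  have : {x : Fin m → ℝ | StrictMono fun i => x (t i)} =
      ⋂ i, ⋂ j, {x | i < j → x (t i) < x (t j)} := by
    ext x
    simp [StrictMono]
  change MeasurableSet {x : Fin m → ℝ | StrictMono fun i => x (t i)}
  rw [this]
  apply MeasurableSet.iInter
  intro i
  apply MeasurableSet.iInter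
  intro j
  by_cases hij : i < j
  · simp only [hij, forall_const]
    exact measurableSet_lt (measurable_pi_apply _) (measurable_pi_apply _)
  · simp [hij]

lemma measurable_Sx {m : ℕ} (t : Equiv.Perm (Fin m)) : MeasurableSet (Sx t) := by
  apply MeasurableSet.inter (measurable_cube m)
  have : {x : Fin m → ℝ | Monotone fun i => x (t i)} =
      ⋂ i, ⋂ j, {x | i ≤ j → x (t i) ≤ x (t j)} := by
    ext x
    simp [Monotone]
  change MeasurableSet {x : Fin m → ℝ | Monotone fun i => x (t i)}
  rw [this]
  apply MeasurableSet.iInter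
  intro i
  apply MeasurableSet.iInter
  intro j
  by_cases hij : i ≤ j
  · simp only [hij, forall_const]
    exact measurableSet_le (measurable_pi_apply _) (measurable_pi_apply _)
  · simp [hij]

lemma disj {m : ℕ} {s t : Equiv.Perm (Fin m)} (h : s ≠ t) : Disjoint (Sm s) (Sm t) := by
  rw [Set.disjoint_left]
  intro x hs ht
  apply h
  have h1 : range (fun i => x (s i)) = range (fun i => x (t i)) := by
    ext a
    constructor
    · rintro ⟨i, rfl⟩
      exact ⟨t.symm (s i), by simp⟩
    · rintro ⟨i, rfl⟩
      exact ⟨s.symm (t i), by simp⟩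
  have h2 := (hs.2.range_inj ht.2).mp h1
  have hinj : Function.Injective x := by
    intro a b hab
    have := hs.2.injective (a₁ := s.symm a) (a₂ := s.symm b) (by simpa using hab)
    exact s.symm.injective this
  ext i
  have h3 : s i = t i := hinj (congrFun h2 i)
  rw [h3]

lemma vol_Sm_eq {m : ℕ} (t : Equiv.Perm (Fin m)) : volume (Sm t) = volume (Sm (1 : Equiv.Perm (Fin m))) := by
  have hmp := volume_measurePreserving_piCongrLeft (fun _ : Fin m => ℝ) t
  have h1 := hmp.measure_preimage (measurable_Sm t).nullMeasurableSet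
  rw [← h1]
  congr 1
  ext x
  have key : ∀ i, (MeasurableEquiv.piCongrLeft (fun _ : Fin m => ℝ) t) x (t i) = x i := by
    intro i
    exact Equiv.piCongrLeft_apply_apply (fun _ : Fin m => ℝ) t x i
  constructor
  · rintro ⟨ha, hb⟩
    refine ⟨fun i => ?_, ?_⟩
    · have := ha (t i)
      rwa [key] at this
    · simp only [key] at hb
      exact hb
  · rintro ⟨ha, hb⟩
    refine ⟨fun i => ?_, ?_⟩
    · have := ha (t.symm i)
      rw [← key, Equiv.apply_symm_apply] at this
      exact this
    · simp only [key]
      exact hb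

lemma vol_Sm (m : ℕ) (s : Equiv.Perm (Fin m)) :
    volume (Sm s) ≤ ENNReal.ofReal (1 / m.factorial) := by
  have h1 : ∑ t : Equiv.Perm (Fin m), volume (Sm t) ≤ 1 := by
    rw [← volume_cube m, ← measure_biUnion_finset]
    · apply measure_mono
      intro x hx
      simp only [mem_iUnion] at hx
      obtain ⟨t, _, ht⟩ := hx
      exact ht.1
    · intro a _ b _ hab
      exact disj hab
    · intro t _
      exact measurable_Sm t
  have h2 : ∑ t : Equiv.Perm (Fin m), volume (Sm t) = (m.factorial : ℝ≥0∞) * volume (Sm s) := by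
    rw [Finset.sum_congr rfl (fun t _ => (vol_Sm_eq t).trans (vol_Sm_eq s).symm)]
    rw [Finset.sum_const, Finset.card_univ, Fintype.card_perm, Fintype.card_fin, nsmul_eq_mul]
  rw [h2] at h1
  have hf : (0:ℝ) < m.factorial := by exact_mod_cast Nat.factorial_pos m
  rw [one_div, ENNReal.ofReal_inv_of_pos hf, ENNReal.ofReal_natCast, ENNReal.le_inv_iff_mul_le]
  rw [mul_comm]
  exact h1

lemma vol_Sx (m : ℕ) (s : Equiv.Perm (Fin m)) :
    volume (Sx s) ≤ ENNReal.ofReal (1 / m.factorial) := by
  have h1 : Sx s ⊆ Sm s ∪ ⋃ p : {p : Fin m × Fin m // p.1 ≠ p.2}, {x | x p.1.1 = x p.1.2} := by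
    intro x hx
    by_cases h : StrictMono fun i => x (s i)
    · exact Or.inl ⟨hx.1, h⟩
    · right
      have hninj : ¬ Function.Injective fun i => x (s i) := by
        intro hinj
        exact h (hx.2.strictMono_of_injective hinj)
      unfold Function.Injective at hninj
      push Not at hninj
      obtain ⟨a, b, hab, hne⟩ := hninj
      rw [mem_iUnion]
      exact ⟨⟨(s a, s b), fun e => hne (s.injective e)⟩, hab⟩
  refine (measure_mono h1).trans ((measure_union_le _ _).trans ?_)
  have h2 : volume (⋃ p : {p : Fin m × Fin m // p.1 ≠ p.2}, {x : Fin m → ℝ | x p.1.1 = x p.1.2})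
      = 0 := by
    rw [measure_iUnion_null_iff]
    intro p
    exact null_eq m _ _ p.2
  rw [h2, add_zero]
  exact vol_Sm m s

theorem gap1 : S_GAP1 := by
  intro n s k l hkl d hd
  cases n with
  | zero => exact k.elim0
  | succ m =>
    have hne : k ≠ l := by
      intro e; rw [e] at hkl; omega
    obtain ⟨c, hc⟩ := Fin.exists_succAbove_eq (x := s k) (y := s l)
      (fun h => hne (s.injective h))
    -- induced permutation
    have hsub : ∀ a : Fin (m + 1), a ≠ l ↔ s a ≠ s l := fun a => by
      rw [not_iff_not]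
      exact ⟨fun h => by rw [h], fun h => s.injective h⟩
    set s' : Equiv.Perm (Fin m) := (finSuccAboveEquiv l).trans
      ((s.subtypeEquiv hsub).trans (finSuccAboveEquiv (s l)).symm) with hs'
    have key : ∀ a : Fin m, (s l).succAbove (s' a) = s (l.succAbove a) := by
      intro a
      have h1 : finSuccAboveEquiv (s l) (s' a) = s.subtypeEquiv hsub (finSuccAboveEquiv l a) := by
        rw [hs']
        simp
      exact congrArg Subtype.val h1
    have h := sec (s l) {x ∈ Sx s | x (s l) - x (s k) ≤ d} (Sx s') (measurable_Sx s')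
      (fun y => y c) (measurable_pi_apply c) d (by
        rintro x ⟨⟨hx1, hx2⟩, hx3⟩
        refine ⟨⟨fun i => hx1 _, ?_⟩, ?_, ?_⟩
        · intro a b hab
          simp only [key]
          exact hx2 ((Fin.strictMono_succAbove l).monotone hab)
        · simp only [hc]
          exact hx2 (Fin.le_def.mpr (by omega))
        · simp only [hc]
          linarith)
    refine h.trans ?_
    rw [Nat.add_sub_cancel, div_eq_mul_one_div, ENNReal.ofReal_mul hd]
    exact mul_le_mul_right (vol_Sx m s') _

lemma gap2' (n : ℕ) (s : Equiv.Perm (Fin n)) (k l k' l' : Fin n)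
    (hkl : l.val = k.val + 1) (hkl' : l'.val = k'.val + 1) (hlt : k.val < k'.val) (d : ℝ) :
    volume {x ∈ Sx s | x (s l) - x (s k) ≤ d ∧ x (s l') - x (s k') ≤ d} ≤
      ENNReal.ofReal d * ENNReal.ofReal d := by
  cases n with
  | zero => exact k.elim0
  | succ m =>
    have n1 : k' ≠ l' := by intro e; rw [e] at hkl'; omega
    have n2 : k ≠ l' := by intro e; rw [e] at hlt; omega
    have n3 : l ≠ l' := by intro e; rw [e] at hkl; omega
    have n4 : k ≠ l := by intro e; rw [e] at hkl; omega
    obtain ⟨c, hc⟩ := Fin.exists_succAbove_eq (x := s k') (y := s l')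
      (fun h => n1 (s.injective h))
    obtain ⟨a, ha⟩ := Fin.exists_succAbove_eq (x := s k) (y := s l')
      (fun h => n2 (s.injective h))
    obtain ⟨b, hb⟩ := Fin.exists_succAbove_eq (x := s l) (y := s l')
      (fun h => n3 (s.injective h))
    have hab : a ≠ b := by
      intro e
      rw [e, hb] at ha
      exact n4 (s.injective ha.symm)
    set T : Set (Fin m → ℝ) := {y | (∀ i, 0 ≤ y i ∧ y i ≤ 1) ∧ y a ≤ y b ∧ y b ≤ y a + d} with hT
    have hTm : MeasurableSet T := by
      apply MeasurableSet.inter (measurable_cube m)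
      apply MeasurableSet.inter
      · exact measurableSet_le (measurable_pi_apply a) (measurable_pi_apply b)
      · have hm : Measurable (fun y : Fin m → ℝ => y a + d) :=
          (measurable_pi_apply a).add measurable_const
        exact measurableSet_le (measurable_pi_apply b) hm
    have h := sec (s l') {x ∈ Sx s | x (s l) - x (s k) ≤ d ∧ x (s l') - x (s k') ≤ d} T hTm
      (fun y => y c) (measurable_pi_apply c) d (by
        rintro x ⟨⟨hx1, hx2⟩, hx3, hx4⟩
        refine ⟨⟨fun i => hx1 _, ?_, ?_⟩, ?_, ?_⟩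
        · simp only [ha, hb]
          exact hx2 (Fin.le_def.mpr (by omega))
        · simp only [ha, hb]
          linarith
        · simp only [hc]
          exact hx2 (Fin.le_def.mpr (by omega))
        · simp only [hc]
          linarith)
    refine h.trans ?_
    apply mul_le_mul_right
    cases m with
    | zero => exact a.elim0
    | succ m =>
      obtain ⟨a', ha'⟩ := Fin.exists_succAbove_eq (x := a) (y := b) hab
      have h2 := sec b T {y : Fin m → ℝ | ∀ i, 0 ≤ y i ∧ y i ≤ 1} (measurable_cube m)
        (fun y => y a') (measurable_pi_apply a') d (by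
          rintro y ⟨hy1, hy2, hy3⟩
          refine ⟨fun i => hy1 _, ?_, ?_⟩
          · simp only [ha']
            exact hy2
          · simp only [ha']
            exact hy3)
      rw [volume_cube, mul_one] at h2
      exact h2

theorem gap2 : S_GAP2 := by
  intro n s k l k' l' hkl hkl' hne d hd
  rw [sq, ENNReal.ofReal_mul hd]
  rcases lt_or_gt_of_ne (fun h => hne (Fin.ext h) : k.val ≠ k'.val) with h | h
  · exact gap2' n s k l k' l' hkl hkl' h d
  · refine le_trans (measure_mono ?_) (gap2' n s k' l' k l hkl' hkl h d)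
    rintro x ⟨hx, h1, h2⟩
    exact ⟨hx, h2, h1⟩

end Pool.Agent.R860.OP
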